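import Mathlib
import Pool.Agent.Helper968.Schild.Numeric
import Pool.Agent.Helper968.Schild.Family4

/-!
A starlike function whose ratio `d*/d` is smaller than the ratio of every Suffridge function `g_a`.
-/

namespace Pool.Agent.Results.MP_5d03ee_an.SchildRatioBelow

/-- the radius of convexity `r₁(f)` -/
noncomputable def convexityRadius (f : ℂ → ℂ) : ℝ :=
  sSup {r : ℝ | 0 < r ∧ r ≤ 1 ∧ Convex ℝ (f '' Metric.ball (0:ℂ) r)}

/-- the ratio `d*(f)/d(f)`: the distance from `0` to the boundary of `f(|z| < r₁)` over the distance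
from `0` to the set of omitted values -/
noncomputable def ratio (f : ℂ → ℂ) : ℝ :=
  sInf ((fun w : ℂ => ‖w‖) '' frontier (f '' Metric.ball (0:ℂ) (convexityRadius f)))
    / Metric.infDist (0:ℂ) (f '' Metric.ball (0:ℂ) 1)ᶜ

/-- the class `S*` of normalized univalent starlike functions -/
def IsStarlike (f : ℂ → ℂ) : Prop :=
  DifferentiableOn ℂ f (Metric.ball (0:ℂ) 1) ∧ Set.InjOn f (Metric.ball (0:ℂ) 1) ∧ f 0 = 0 ∧
    deriv f 0 = 1 ∧ StarConvex ℝ (0:ℂ) (f '' Metric.ball (0:ℂ) 1)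

/-- `g` is the function `g_a`, `a = 2b² - 1`: here `L` and `M` are the continuous logarithms, equal
to `0` at `0`, of `(R + b(1+z))/((1+b)(1-z))` and of `2/(R+1+z)`, where `R = √(1+2az+z²)` -/
def IsSuffridge (b : ℝ) (g : ℂ → ℂ) : Prop :=
  ∃ L M : ℂ → ℂ,
    ContinuousOn L (Metric.ball (0:ℂ) 1) ∧ ContinuousOn M (Metric.ball (0:ℂ) 1) ∧
    L 0 = 0 ∧ M 0 = 0 ∧
    (∀ z ∈ Metric.ball (0:ℂ) 1, Complex.exp (L z) =
      ((1 + 2 * (2 * (b:ℂ) ^ 2 - 1) * z + z ^ 2) ^ (1/2 : ℂ) + (b:ℂ) * (1 + z)) /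
        ((1 + (b:ℂ)) * (1 - z))) ∧
    (∀ z ∈ Metric.ball (0:ℂ) 1, Complex.exp (M z) =
      2 / ((1 + 2 * (2 * (b:ℂ) ^ 2 - 1) * z + z ^ 2) ^ (1/2 : ℂ) + 1 + z)) ∧
    g = fun z : ℂ => z * Complex.exp (2 * (b:ℂ) * L z + 2 * M z)

/-- Some starlike function has `d*/d ≤ 0.6048`, while every `g_a`, `a = 2b² - 1`, `0 ≤ b ≤ 1`, has
`d*/d ≥ 0.605`; in particular the infimum of `d*/d` over `S*` is at most `0.6048`. -/
theorem result :
    (∃ f : ℂ → ℂ, IsStarlike f ∧ ratio f ≤ 0.6048) ∧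
    (∀ f : ℂ → ℂ, 0 ≤ ratio f) ∧
    sInf {x : ℝ | ∃ f : ℂ → ℂ, IsStarlike f ∧ x = ratio f} ≤ 0.6048 ∧
    ∀ (b : ℝ) (g : ℂ → ℂ), 0 ≤ b → b ≤ 1 → IsSuffridge b g → 0.605 ≤ ratio g := by
  obtain ⟨hpar, hup⟩ := Helper968.Schild.example8
  have h0 := Helper968.Schild.ef_zero Helper968.Schild.X8
    (fun j => (Helper968.Schild.N8 j : ℝ) / (32:ℕ))
  have hS := And.intro hpar.diff_ef (And.intro hpar.starlike.1
    (And.intro h0 (And.intro hpar.deriv_ef_zero hpar.starlike.2)))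
  refine ⟨⟨_, hS, hup⟩, fun f => Helper968.Schild.rho_nonneg f, ?_, ?_⟩
  · have hbdd : BddBelow {x : ℝ | ∃ f : ℂ → ℂ, IsStarlike f ∧ x = ratio f} := by
      refine ⟨0, ?_⟩
      rintro _ ⟨f, -, rfl⟩
      exact Helper968.Schild.rho_nonneg f
    exact (csInf_le hbdd ⟨_, hS, rfl⟩).trans hup
  · rintro b g hb0 hb1 ⟨L, M, hLc, hMc, hL0, hM0, hL, hM, rfl⟩
    have hF : Helper968.Schild.Fam b L M := by
      refine ⟨hb0, hb1, hLc, hMc, hL0, hM0, ?_, hM⟩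
      intro z hz
      rw [hL z hz]
      have h1 := Helper968.Schild.one_sub_ne (mem_ball_zero_iff.mp hz)
      have h2 : (1 + (b:ℂ)) ≠ 0 := by
        have : (1 + (b:ℂ)) = ((1 + b : ℝ) : ℂ) := by push_cast; ring
        rw [this]
        exact Complex.ofReal_ne_zero.mpr (by linarith)
      field_simp
    exact hF.ratio

end Pool.Agent.Results.MP_5d03ee_an.SchildRatioBelow
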